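import Pool.Agent.Helper98.HQ.Spec

/-!
# HQ part PF1: lower bound for the first workload after a huge service
-/

set_option autoImplicit false

open MeasureTheory Filter Topology
open scoped ENNReal NNReal

namespace Pool.Agent.Helper6.HQ.PF1

open Pool.Agent.Helper98.HQ

theorem lsum_eq {m : ℕ} (w : Fin (m + 1) → ℝ) : lsum w = ∑ i : Fin m, w i.castSucc := by
  unfold lsum
  rw [Fin.sum_univ_castSucc]
  ring

theorem stp_eq {k : ℕ} (c : ℝ) (w : Fin k → ℝ) (u : ℝ × ℝ) (h1 : 0 ≤ u.1) (h2 : 0 ≤ u.2) :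
    stp c w u = kw w (c * u.2) u.1 := by
  unfold stp
  rw [max_eq_left h1, max_eq_left h2]

theorem MX_nonneg (ω : ℕ → ℝ × ℝ) (n : ℕ) : 0 ≤ MX ω n := by
  induction n with
  | zero => exact le_refl _
  | succ n ih => exact le_trans ih (le_max_left _ _)

theorem adm_pth (hKWB : S_KWB) {k : ℕ} (c : ℕ → ℝ) (w : Fin k → ℝ) (ω : ℕ → ℝ × ℝ) (n : ℕ) :
    Adm (pth c w ω (n + 1)) :=
  (hKWB k (pth c w ω n) (pth c w ω n) (c n * max (ω n).2 0) 0 (max (ω n).1 0)).1

theorem pth_mono (hKWB : S_KWB) {k : ℕ} (c : ℕ → ℝ) (w w' : Fin k → ℝ) (ω : ℕ → ℝ × ℝ)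
    (hww : ∀ i, w i ≤ w' i) (n : ℕ) : ∀ i, pth c w ω n i ≤ pth c w' ω n i := by
  induction n with
  | zero => exact hww
  | succ n ih => exact (hKWB k _ _ _ _ _).2.1 ih le_rfl

theorem main (hKWB : S_KWB) (hSPR : S_SPR) (hLOWS : S_LOWS) (hLSL : S_LSL) (hTOP : S_TOP) :
    S_PF1 := by
  intro m a b w ω n hm ha0 ha1 hb hw hω
  have hmR : (1 : ℝ) ≤ m := by exact_mod_cast hm
  -- replace `w` by `0`
  refine le_trans ?_ (pth_mono hKWB (cc a b) 0 w ω (fun i => hw.2 i) (n + 1) 0)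
  set Y : ℕ → Fin (m + 1) → ℝ := fun j => pth (cc a b) (0 : Fin (m + 1) → ℝ) ω (j + 1) with hY
  have hadm : ∀ j, Adm (Y j) := fun j => adm_pth hKWB _ _ _ j
  have h0adm : Adm (0 : Fin (m + 1) → ℝ) := ⟨fun _ _ _ => le_rfl, fun _ => le_rfl⟩
  have hY0 : Y 0 = kw 0 (b * (ω 0).2) (ω 0).1 := by
    show stp (cc a b 0) 0 (ω 0) = _
    rw [stp_eq _ _ _ (hω 0).1 (hω 0).2]
    simp [cc]
  have hYs : ∀ j, Y (j + 1) = kw (Y j) (a * (ω (j + 1)).2) (ω (j + 1)).1 := by
    intro j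
    show stp (cc a b (j + 1)) (Y j) (ω (j + 1)) = _
    rw [stp_eq _ _ _ (hω _).1 (hω _).2]
    simp [cc]
  have hbS : 0 ≤ b * (ω 0).2 := mul_nonneg hb (hω 0).2
  obtain ⟨-, hT2, -, hT4⟩ := hTOP m 0 (b * (ω 0).2) (ω 0).1 h0adm hbS (hω 0).1
  rw [← hY0] at hT2 hT4
  have hz : ∑ i : Fin (m + 1), (0 : Fin (m + 1) → ℝ) i = 0 := by simp
  rw [hz] at hT4
  have hlow0 : ∀ i : Fin m, Y 0 i.castSucc = 0 := by
    rw [lsum_eq] at hT4
    have hnn : ∀ i ∈ (Finset.univ : Finset (Fin m)), 0 ≤ Y 0 i.castSucc :=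
      fun i _ => (hadm 0).2 _
    have h0 : ∑ i : Fin m, Y 0 i.castSucc = 0 := le_antisymm hT4 (Finset.sum_nonneg hnn)
    intro i
    exact (Finset.sum_eq_zero_iff_of_nonneg hnn).1 h0 i (Finset.mem_univ i)
  -- sums
  have hsum : ∀ j, b * (ω 0).2 - (ω 0).1 +
      ∑ i ∈ Finset.Icc 1 j, (a * (ω i).2 - (m + 1) * (ω i).1) ≤ ∑ i, Y j i := by
    intro j
    induction j with
    | zero =>
      have h1 : b * (ω 0).2 - (ω 0).1 ≤ Y 0 (Fin.last m) := by
        have : (0 : Fin (m + 1) → ℝ) 0 = 0 := rfl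
        rw [this] at hT2
        linarith
      have h2 : Y 0 (Fin.last m) ≤ ∑ i, Y 0 i :=
        Finset.single_le_sum (f := fun i => Y 0 i) (fun i _ => (hadm 0).2 i)
          (Finset.mem_univ (Fin.last m))
      have h3 : ∑ i ∈ Finset.Icc 1 0, (a * (ω i).2 - (m + 1) * (ω i).1) = 0 := by simp
      rw [h3]; linarith
    | succ j ih =>
      have hs : 0 ≤ a * (ω (j + 1)).2 := mul_nonneg ha0 (hω _).2
      have h := (hTOP m (Y j) (a * (ω (j + 1)).2) (ω (j + 1)).1 (hadm j) hs (hω _).1).2.2.1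
      rw [← hYs] at h
      rw [Finset.sum_Icc_succ_top (by omega : 1 ≤ j + 1)]
      linarith
  -- the dichotomy
  have hdich : ∀ j, (Y j (Fin.last m) - Y j 0 ≤ MX ω j) ∨
      (Low (MX ω j) (Y j) ∧ ∑ i ∈ Finset.Icc 1 j, (a * (ω i).2 - m * (ω i).1) ≤ lsum (Y j)) := by
    intro j
    induction j with
    | zero =>
      right
      constructor
      · intro i hi
        obtain ⟨i', rfl⟩ := Fin.exists_castSucc_eq.2 hi
        rw [hlow0 i']
        have h1 := (hadm 0).2 0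
        have h2 : MX ω 0 = 0 := rfl
        rw [h2]; linarith
      · rw [lsum_eq]
        have : ∑ i : Fin m, Y 0 i.castSucc = 0 := Finset.sum_eq_zero fun i _ => hlow0 i
        rw [this]
        simp
    | succ j ih =>
      have hs : 0 ≤ a * (ω (j + 1)).2 := mul_nonneg ha0 (hω _).2
      have hsle : a * (ω (j + 1)).2 ≤ (ω (j + 1)).2 := by
        have := mul_le_mul_of_nonneg_right ha1 (hω (j + 1)).2
        linarith
      have hM1 : MX ω j ≤ MX ω (j + 1) := le_max_left _ _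
      have hM2 : (ω (j + 1)).2 ≤ MX ω (j + 1) := le_max_right _ _
      have hsM : a * (ω (j + 1)).2 ≤ MX ω (j + 1) := le_trans hsle hM2
      have hA : Y j (Fin.last m) - Y j 0 ≤ MX ω (j + 1) →
          Y (j + 1) (Fin.last m) - Y (j + 1) 0 ≤ MX ω (j + 1) := by
        intro h
        rw [hYs]
        exact hSPR m (Y j) _ _ _ (hadm j) hs hsM (hω _).1 h
      rcases ih with h | ⟨hL, hl⟩
      · left
        exact hA (le_trans h hM1)
      · by_cases hc : a * (ω (j + 1)).2 ≤ Y j (Fin.last m) - Y j 0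
        · right
          constructor
          · rw [hYs]
            refine (hLOWS m (Y j) _ _ _ hm (hadm j) hs hsM (hω _).1 ?_).1
            intro i hi
            exact le_trans (hL i hi) hM1
          · have h := hLSL m (Y j) _ _ hm (hadm j) hs (hω (j + 1)).1 hc
            rw [← hYs] at h
            rw [Finset.sum_Icc_succ_top (by omega : 1 ≤ j + 1)]
            linarith
        · left
          push Not at hc
          exact hA (by linarith)
  -- conclusion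
  show F1 m a b ω n ≤ Y n 0
  have hM0 := MX_nonneg ω n
  unfold F1
  rcases hdich n with h | ⟨hL, hl⟩
  · have h1 : ∑ i, Y n i ≤ (m + 1) * (Y n 0 + MX ω n) := by
      have : ∑ i, Y n i ≤ ∑ _i : Fin (m + 1), (Y n 0 + MX ω n) := by
        apply Finset.sum_le_sum
        intro i _
        have := (hadm n).1 (Fin.le_last i)
        linarith
      simpa [mul_add] using this
    have h2 := hsum n
    have h3 : (b * (ω 0).2 - (ω 0).1 +
        ∑ i ∈ Finset.Icc 1 n, (a * (ω i).2 - (m + 1) * (ω i).1)) / ((m : ℝ) + 1) ≤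
        Y n 0 + MX ω n := by
      rw [div_le_iff₀ (by positivity)]
      linarith
    have h4 := min_le_right ((∑ j ∈ Finset.Icc 1 n, (a * (ω j).2 - m * (ω j).1)) / (m : ℝ))
      ((b * (ω 0).2 - (ω 0).1 +
        ∑ i ∈ Finset.Icc 1 n, (a * (ω i).2 - (m + 1) * (ω i).1)) / ((m : ℝ) + 1))
    linarith
  · have h1 : lsum (Y n) ≤ m * (Y n 0 + MX ω n) := by
      rw [lsum_eq]
      have : ∑ i : Fin m, Y n i.castSucc ≤ ∑ _i : Fin m, (Y n 0 + MX ω n) := by
        apply Finset.sum_le_sum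
        intro i _
        have := hL i.castSucc (Fin.castSucc_lt_last i).ne
        linarith
      simpa [mul_add] using this
    have h3 : (∑ j ∈ Finset.Icc 1 n, (a * (ω j).2 - m * (ω j).1)) / (m : ℝ) ≤
        Y n 0 + MX ω n := by
      rw [div_le_iff₀ (by linarith)]
      linarith
    have h4 := min_le_left ((∑ j ∈ Finset.Icc 1 n, (a * (ω j).2 - m * (ω j).1)) / (m : ℝ))
      ((b * (ω 0).2 - (ω 0).1 +
        ∑ i ∈ Finset.Icc 1 n, (a * (ω i).2 - (m + 1) * (ω i).1)) / ((m : ℝ) + 1))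
    linarith

end Pool.Agent.Helper6.HQ.PF1
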