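import Pool.Agent.Helper98.HQ.Spec

/-!
# HQ part PF2: lower bound for the difference of the last and the first workload
-/

set_option autoImplicit false

open MeasureTheory Filter Topology
open scoped ENNReal NNReal

namespace Pool.Agent.Helper6.HQ.PF2

open Pool.Agent.Helper98.HQ

theorem lsum_eq {m : ℕ} (w : Fin (m + 1) → ℝ) : lsum w = ∑ i : Fin m, w i.castSucc := by
  unfold lsum
  rw [Fin.sum_univ_castSucc]
  ring

theorem stp_eq {k : ℕ} (c : ℝ) (w : Fin k → ℝ) (u : ℝ × ℝ) (h1 : 0 ≤ u.1) (h2 : 0 ≤ u.2) :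
    stp c w u = kw w (c * u.2) u.1 := by
  unfold stp
  rw [max_eq_left h1, max_eq_left h2]

theorem MX_nonneg (ω : ℕ → ℝ × ℝ) (n : ℕ) : 0 ≤ MX ω n := by
  induction n with
  | zero => exact le_refl _
  | succ n ih => exact le_trans ih (le_max_left _ _)

theorem UU_nonneg (m : ℕ) (a : ℝ) (ω : ℕ → ℝ × ℝ) (n : ℕ) : 0 ≤ UU m a ω n := by
  cases n with
  | zero => exact le_refl _
  | succ n => exact le_max_right _ _

theorem adm_pth (hKWB : S_KWB) {k : ℕ} (c : ℕ → ℝ) (w : Fin k → ℝ) (ω : ℕ → ℝ × ℝ) (n : ℕ) :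
    Adm (pth c w ω (n + 1)) :=
  (hKWB k (pth c w ω n) (pth c w ω n) (c n * max (ω n).2 0) 0 (max (ω n).1 0)).1

theorem main (hKWB : S_KWB) (hLOWS : S_LOWS) (hTOP : S_TOP) : S_PF2 := by
  intro m a b w ω n hm ha0 ha1 hb hw hω
  have hmR : (1 : ℝ) ≤ m := by exact_mod_cast hm
  set Y : ℕ → Fin (m + 1) → ℝ := fun j => pth (cc a b) w ω (j + 1) with hY
  have hadm : ∀ j, Adm (Y j) := fun j => adm_pth hKWB _ _ _ j
  have hY0 : Y 0 = kw w (b * (ω 0).2) (ω 0).1 := by
    show stp (cc a b 0) w (ω 0) = _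
    rw [stp_eq _ _ _ (hω 0).1 (hω 0).2]
    simp [cc]
  have hYs : ∀ j, Y (j + 1) = kw (Y j) (a * (ω (j + 1)).2) (ω (j + 1)).1 := by
    intro j
    show stp (cc a b (j + 1)) (Y j) (ω (j + 1)) = _
    rw [stp_eq _ _ _ (hω _).1 (hω _).2]
    simp [cc]
  have hbS : 0 ≤ b * (ω 0).2 := mul_nonneg hb (hω 0).2
  obtain ⟨-, hT2, -, hT4⟩ := hTOP m w (b * (ω 0).2) (ω 0).1 hw hbS (hω 0).1
  rw [← hY0] at hT2 hT4
  set W := ∑ i, w i with hW
  have hW0 : 0 ≤ W := Finset.sum_nonneg fun i _ => hw.2 i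
  -- the last server
  have hlast : ∀ j, b * (ω 0).2 - ∑ i ∈ Finset.range (j + 1), (ω i).1 ≤ Y j (Fin.last m) := by
    intro j
    induction j with
    | zero =>
      have h0 := hw.2 0
      simp only [zero_add, Finset.range_one, Finset.sum_singleton]
      linarith
    | succ j ih =>
      have hs : 0 ≤ a * (ω (j + 1)).2 := mul_nonneg ha0 (hω _).2
      have h := (hTOP m (Y j) (a * (ω (j + 1)).2) (ω (j + 1)).1 (hadm j) hs (hω _).1).1
      rw [← hYs] at h
      rw [Finset.sum_range_succ]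
      linarith
  -- the lower servers
  have hlow : ∀ j, Low (W + MX ω j) (Y j) ∧
      lsum (Y j) ≤ W + m * (W + MX ω j) + UU m a ω j := by
    intro j
    induction j with
    | zero =>
      have h2 : MX ω 0 = 0 := rfl
      have h3 : UU m a ω 0 = 0 := rfl
      constructor
      · intro i hi
        obtain ⟨i', rfl⟩ := Fin.exists_castSucc_eq.2 hi
        have h1 := (hadm 0).2 0
        have h4 : Y 0 i'.castSucc ≤ lsum (Y 0) := by
          rw [lsum_eq]
          exact Finset.single_le_sum (f := fun i : Fin m => Y 0 i.castSucc)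
            (fun i _ => (hadm 0).2 _) (Finset.mem_univ i')
        rw [h2]; linarith
      · rw [h2, h3]
        have : 0 ≤ (m : ℝ) * (W + 0) := by positivity
        linarith
    | succ j ih =>
      obtain ⟨hL, hl⟩ := ih
      have hs : 0 ≤ a * (ω (j + 1)).2 := mul_nonneg ha0 (hω _).2
      have hsle : a * (ω (j + 1)).2 ≤ (ω (j + 1)).2 := by
        have := mul_le_mul_of_nonneg_right ha1 (hω (j + 1)).2
        linarith
      have hM1 : MX ω j ≤ MX ω (j + 1) := le_max_left _ _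
      have hM2 : (ω (j + 1)).2 ≤ MX ω (j + 1) := le_max_right _ _
      have hsM : a * (ω (j + 1)).2 ≤ W + MX ω (j + 1) := by linarith
      have h := hLOWS m (Y j) (a * (ω (j + 1)).2) (ω (j + 1)).1 (W + MX ω (j + 1)) hm (hadm j)
        hs hsM (hω _).1 (fun i hi => by have := hL i hi; linarith)
      rw [← hYs] at h
      refine ⟨h.1, le_trans h.2 ?_⟩
      have hU1 : UU m a ω j + a * (ω (j + 1)).2 - m * (ω (j + 1)).1 ≤ UU m a ω (j + 1) :=
        le_max_left _ _
      have hU0 := UU_nonneg m a ω (j + 1)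
      have hmM : (m : ℝ) * (W + MX ω j) ≤ m * (W + MX ω (j + 1)) :=
        mul_le_mul_of_nonneg_left (by linarith) (by linarith)
      apply max_le
      · linarith
      · linarith
  -- conclusion
  show F2 m a b ω n - 2 * W ≤ Y n (Fin.last m) - Y n 0
  obtain ⟨-, hl⟩ := hlow n
  have h1 : (m : ℝ) * Y n 0 ≤ lsum (Y n) := by
    rw [lsum_eq]
    have : ∑ _i : Fin m, Y n 0 ≤ ∑ i : Fin m, Y n i.castSucc :=
      Finset.sum_le_sum fun i _ => (hadm n).1 (Fin.zero_le _)
    simpa using this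
  have hU0 := UU_nonneg m a ω n
  have h2 : Y n 0 ≤ 2 * W + MX ω n + UU m a ω n / m := by
    have hm0 : (0 : ℝ) < m := by linarith
    have h3 : (m : ℝ) * Y n 0 ≤ m * (2 * W + MX ω n + UU m a ω n / m) := by
      have h4 : (m : ℝ) * (UU m a ω n / m) = UU m a ω n := by field_simp
      have h5 : W ≤ m * W := by nlinarith
      nlinarith
    exact le_of_mul_le_mul_left h3 hm0
  have h3 := hlast n
  unfold F2
  linarith

end Pool.Agent.Helper6.HQ.PF2
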